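import Mathlib
import Pool.Agent.Helper332.SAD.Statements

/-!
# Compact continuous images of `C_p(K)` for compact spaces `K` of size at most continuum

It is consistent with ZFC that some compact space `K` with at most `𝔠` points admits a continuous
map of `C_p(K)` onto a non-metrizable compact space; in fact onto a Tychonoff cube of weight `ℵ₁`.
-/

set_option autoImplicit false

namespace Pool.Agent.Results.MP_6eabd1_gt.NotATheorem

open Cardinal Set
open Pool.Agent.Helper332.SAD (SADHolds StronglyAlmostDisjoint)
open Pool.Agent.Helper292.ForceCH (OmegaOnePreserved)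

/-- (1) Some forcing notion forces that `ω₁` is preserved and that there are `2^{ω₁}` strongly
almost disjoint functions `ω₁ → ω` (any two of them agree only at finitely many places).
(2) If there are `2^{ω₁}` strongly almost disjoint functions `ω₁ → ω`, then there is a compact
Hausdorff space `K` of size at most continuum such that `C_p(K)` maps continuously onto a
non-metrizable compact Hausdorff space. -/
theorem result :
    (∃ (P : Type) (_ : Preorder P) (I : Type), Nonempty P ∧
      ∀ p : P, p ∈ OmegaOnePreserved P ∧ p ∈ SADHolds P I) ∧
    (StronglyAlmostDisjoint →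
      ∃ (K : Type) (_ : TopologicalSpace K), CompactSpace K ∧ T2Space K ∧ #K ≤ 𝔠 ∧
        ∃ (Y : Type) (_ : TopologicalSpace Y) (φ : {g : K → ℝ // Continuous g} → Y),
          CompactSpace Y ∧ T2Space Y ∧ Continuous φ ∧ Function.Surjective φ ∧
          ¬ TopologicalSpace.MetrizableSpace Y) := by
  refine ⟨Pool.Agent.Helper332.SAD.exists_forcing, ?_⟩
  rintro ⟨I, f, e, hf, he⟩
  obtain ⟨K, tK, h1, h2, -, -, h3, h4⟩ :=
    Pool.Agent.Helper332.SADSpace.space_of_sad I f e hf he
  exact ⟨K, tK, h1, h2, h3, h4⟩

end Pool.Agent.Results.MP_6eabd1_gt.NotATheorem
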